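import Pool.Agent.helper94.SP.Defs

/-!
# The average over the renormalised spectrum
-/

set_option autoImplicit false

namespace Pool.Agent.helper32.ZO

open Pool.Agent.helper94.SP

/-- The average of `f` over the finite set `Y β`, i.e. the integral of `f` with respect to the
uniform probability measure on `Y β`. -/
noncomputable def avg (β : ℝ) (f : ℝ → ℝ) : ℝ := (∑ᶠ y ∈ Y β, f y) / ((Y β).ncard : ℝ)

end Pool.Agent.helper32.ZO
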