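import Pool.Agent.helper32.ZO.Main

/-!
# Finiteness of the renormalised spectra, and long intervals
-/

set_option autoImplicit false

namespace Pool.Agent.helper32.ZO

open MeasureTheory Filter Topology Set Pool.Agent.helper94.SP

theorem geo_bound (r : ℝ) (h0 : 0 ≤ r) (h1 : r < 1) (m : ℕ) :
    ∑ i ∈ Finset.range m, r ^ i ≤ 1 / (1 - r) := by
  have h := geom_sum_mul_neg r m
  have h2 : 0 < 1 - r := by linarith
  rw [le_div_iff₀ h2, h]
  have : 0 ≤ r ^ m := pow_nonneg h0 m
  linarith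

theorem Y_finite {β : ℝ} (h : IsPisot β) : (Y β).Finite := by
  obtain ⟨h1, hint, hconj⟩ := h
  have hintQ : IsIntegral ℚ β := hint.tower_top
  haveI : FiniteDimensional ℚ (IntermediateField.adjoin ℚ {β}) :=
    IntermediateField.adjoin.finiteDimensional hintQ
  haveI : NumberField (IntermediateField.adjoin ℚ {β}) := ⟨⟩
  set K := IntermediateField.adjoin ℚ {β} with hK
  set g : K := IntermediateField.AdjoinSimple.gen ℚ β with hg
  have hgβ : (algebraMap K ℝ) g = β := IntermediateField.AdjoinSimple.algebraMap_gen ℚ β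
  have hinj : Function.Injective (algebraMap K ℝ) := (algebraMap K ℝ).injective
  have hroot : Polynomial.aeval g (minpoly ℤ β) = 0 := by
    apply hinj
    rw [map_zero, ← Polynomial.aeval_algebraMap_apply, hgβ]
    exact minpoly.aeval ℤ β
  have hgint : IsIntegral ℤ g := ⟨minpoly ℤ β, minpoly.monic hint, by
    rw [← Polynomial.aeval_def]; exact hroot⟩
  have hroot2 : ∀ φ : K →+* ℂ, Polynomial.aeval (φ g) (minpoly ℤ β) = 0 := by
    intro φ
    have e : Polynomial.aeval (φ g) (minpoly ℤ β) = φ (Polynomial.aeval g (minpoly ℤ β)) := by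
      rw [Polynomial.aeval_def, Polynomial.aeval_def, Polynomial.hom_eval₂]
      congr 1
      exact RingHom.ext_int _ _
    rw [e, hroot, map_zero]
  set B : ℝ := 1 + ∑ φ : K →+* ℂ, |2 / (1 - ‖φ g‖)| with hB
  have hfin := NumberField.Embeddings.finite_of_norm_le K ℂ B
  apply (hfin.image (algebraMap K ℝ)).subset
  intro y hy
  have hyabs := Y_abs h1 hy
  obtain ⟨x, ⟨n, a, ha, hx⟩, _, hyx⟩ := hy
  refine ⟨(g - 1) * ∑ i ∈ Finset.range (n + 1), (a i : K) * g ^ i, ⟨?_, ?_⟩, ?_⟩
  · apply IsIntegral.mul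
    · exact hgint.sub isIntegral_one
    · apply IsIntegral.sum
      intro i _
      apply IsIntegral.mul _ (hgint.pow i)
      exact isIntegral_algebraMap (R := ℤ) (A := K) (x := a i)
  · intro φ
    have e : φ ((g - 1) * ∑ i ∈ Finset.range (n + 1), (a i : K) * g ^ i) =
        (φ g - 1) * ∑ i ∈ Finset.range (n + 1), (a i : ℂ) * (φ g) ^ i := by
      rw [map_mul, map_sub, map_one, map_sum]
      congr 1
      apply Finset.sum_congr rfl
      intro i _
      rw [map_mul, map_pow, map_intCast]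
    rw [e]
    have hBnn : 0 ≤ ∑ φ : K →+* ℂ, |2 / (1 - ‖φ g‖)| :=
      Finset.sum_nonneg fun φ _ => abs_nonneg _
    by_cases hβ : φ g = (β : ℂ)
    · have e2 : (φ g - 1) * ∑ i ∈ Finset.range (n + 1), (a i : ℂ) * (φ g) ^ i = ((y : ℝ) : ℂ) := by
        rw [hβ, hyx, hx]
        push_cast
        ring
      rw [e2, Complex.norm_real, Real.norm_eq_abs]
      linarith
    · have hlt := hconj (φ g) (hroot2 φ) hβ
      have h2 : 0 < 1 - ‖φ g‖ := by linarith
      have s1 : ‖∑ i ∈ Finset.range (n + 1), (a i : ℂ) * (φ g) ^ i‖ ≤ 1 / (1 - ‖φ g‖) := by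
        calc _ ≤ ∑ i ∈ Finset.range (n + 1), ‖(a i : ℂ) * (φ g) ^ i‖ := norm_sum_le _ _
          _ ≤ ∑ i ∈ Finset.range (n + 1), ‖φ g‖ ^ i := by
              apply Finset.sum_le_sum
              intro i _
              rw [norm_mul, norm_pow]
              have : ‖(a i : ℂ)‖ ≤ 1 := by
                rcases ha i with h | h | h <;> rw [h] <;> simp
              exact mul_le_of_le_one_left (by positivity) this
          _ ≤ _ := geo_bound _ (norm_nonneg _) hlt _
      have s2 : ‖φ g - 1‖ ≤ 2 := by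
        calc ‖φ g - 1‖ ≤ ‖φ g‖ + ‖(1 : ℂ)‖ := norm_sub_le _ _
          _ ≤ 2 := by rw [norm_one]; linarith
      have s3 : ‖(φ g - 1) * ∑ i ∈ Finset.range (n + 1), (a i : ℂ) * (φ g) ^ i‖ ≤
          |2 / (1 - ‖φ g‖)| := by
        rw [norm_mul, abs_of_pos (by positivity)]
        calc _ ≤ 2 * (1 / (1 - ‖φ g‖)) := mul_le_mul s2 s1 (norm_nonneg _) (by norm_num)
          _ = _ := by ring
      have s4 : |2 / (1 - ‖φ g‖)| ≤ ∑ φ : K →+* ℂ, |2 / (1 - ‖φ g‖)| :=
        Finset.single_le_sum (f := fun φ : K →+* ℂ => |2 / (1 - ‖φ g‖)|)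
          (fun φ _ => abs_nonneg _) (Finset.mem_univ φ)
      linarith
  · rw [map_mul, map_sub, map_one, map_sum, hgβ, hyx, hx]
    have e3 : ∀ i ∈ Finset.range (n + 1), (algebraMap K ℝ) ((a i : K) * g ^ i) =
        (a i : ℝ) * β ^ i := by
      intro i _
      rw [map_mul, map_pow, map_intCast, hgβ]
    rw [Finset.sum_congr rfl e3]

theorem dig_half (α : ℝ) (h1 : 1 < α) (h2 : α ≤ 3) : ∀ k : ℕ, ∀ t : ℝ,
    |t| ≤ (α ^ k - 1) / (α - 1) + 1 / 2 →
    ∃ a : ℕ → ℤ, Dig a ∧ |t - W a k α| ≤ 1 / 2 := by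
  have hα : 0 < α - 1 := by linarith
  intro k
  induction k with
  | zero =>
    intro t ht
    refine ⟨fun _ => 0, fun _ => Or.inr (Or.inl rfl), ?_⟩
    simpa [W] using ht
  | succ k ih =>
    intro t ht
    have hp : 1 ≤ α ^ k := one_le_pow₀ h1.le
    have key : ∃ d : ℤ, (d = -1 ∨ d = 0 ∨ d = 1) ∧
        |t - d * α ^ k| ≤ (α ^ k - 1) / (α - 1) + 1 / 2 := by
      have hM1 : (α ^ (k + 1) - 1) / (α - 1) + 1 / 2 =
          ((α ^ k - 1) / (α - 1) + 1 / 2) + α ^ k := by
        field_simp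
        ring
      have hM2 : α ^ k ≤ 2 * ((α ^ k - 1) / (α - 1) + 1 / 2) := by
        have : (α ^ k - 1) / 2 ≤ (α ^ k - 1) / (α - 1) := by
          apply div_le_div_of_nonneg_left _ hα (by linarith)
          linarith
        linarith
      rw [hM1] at ht
      generalize (α ^ k - 1) / (α - 1) + 1 / 2 = M at *
      rcases le_or_gt |t| M with h | h
      · exact ⟨0, Or.inr (Or.inl rfl), by simpa using h⟩
      · rcases le_total 0 t with h0 | h0
        · rw [abs_of_nonneg h0] at h ht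
          refine ⟨1, Or.inr (Or.inr rfl), ?_⟩
          rw [abs_le]
          push_cast
          constructor <;> linarith
        · rw [abs_of_nonpos h0] at h ht
          refine ⟨-1, Or.inl rfl, ?_⟩
          rw [abs_le]
          push_cast
          constructor <;> linarith
    obtain ⟨d, hd, hd2⟩ := key
    obtain ⟨a, ha, ha2⟩ := ih (t - d * α ^ k) hd2
    refine ⟨fun i => if i = k then d else a i, ?_, ?_⟩
    · intro i
      by_cases h : i = k
      · simpa [h] using hd
      · simpa [h] using ha i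
    · have e : W (fun i => if i = k then d else a i) (k + 1) α = W a k α + d * α ^ k := by
        unfold W
        rw [Finset.sum_range_succ]
        congr 1
        · apply Finset.sum_congr rfl
          intro i hi
          have hik : i ≠ k := (Finset.mem_range.mp hi).ne
          simp [hik]
        · simp
      rw [e, show t - (W a k α + d * α ^ k) = t - d * α ^ k - W a k α by ring]
      exact ha2

theorem open_law {β : ℕ → ℝ} {α : ℝ} (hα1 : 1 < α) (hα2 : α ≤ 2) (hβ : ∀ n, 1 < β n)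
    (hfin : ∀ n, (Y (β n)).Finite)
    (hlim : Tendsto β atTop (𝓝 α)) (μ : Measure ℝ) [IsProbabilityMeasure μ]
    (hμ : ∀ f : ℝ → ℝ, Continuous f → Tendsto (fun n => avg (β n) f) atTop (𝓝 (∫ x, f x ∂μ)))
    (hns : μ (Ioo (-1) 1) ≠ 0) (s t : ℝ) (hs : -1 ≤ s) (ht : t ≤ 1) (hst : α - 1 < t - s) :
    μ (Ioo s t) ≠ 0 := by
  intro h0
  apply hns
  have hα : 0 < α - 1 := by linarith
  apply measure_null_of_locally_null
  intro y hy
  -- target point and compact interval
  set z := (s + t) / 2 with hz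
  set ρ := ((t - s) / 2 + (α - 1) / 2) / 2 with hρ
  have hρ1 : (α - 1) / 2 < ρ := by rw [hρ]; linarith
  have hρ2 : ρ < (t - s) / 2 := by rw [hρ]; linarith
  have hzabs : |z| ≤ 1 := by
    rw [abs_le, hz]
    constructor <;> linarith
  have hyabs : |y| < 1 := abs_lt.mpr ⟨hy.1, hy.2⟩
  obtain ⟨k, hk⟩ := pow_unbounded_of_one_lt (2 / (1 - |y|)) hα1
  have hy1 : 0 < 1 - |y| := by linarith
  rw [div_lt_iff₀ hy1] at hk
  have hp : 0 < α ^ k := by positivity
  obtain ⟨a, ha, hW⟩ := dig_half α hα1 (by linarith) k ((z - α ^ k * y) / (α - 1)) (by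
    rw [abs_div, abs_of_pos hα]
    have h3 : |z - α ^ k * y| ≤ α ^ k - 1 := by
      calc |z - α ^ k * y| ≤ |z| + |α ^ k * y| := abs_sub _ _
        _ ≤ 1 + α ^ k * |y| := by rw [abs_mul, abs_of_pos hp]; linarith
        _ ≤ α ^ k - 1 := by nlinarith
    have h4 : |z - α ^ k * y| / (α - 1) ≤ (α ^ k - 1) / (α - 1) :=
      div_le_div_of_nonneg_right h3 hα.le
    linarith)
  have hSz : |Sm a k α y - z| ≤ (α - 1) / 2 := by
    have e : Sm a k α y - z = -((α - 1) * ((z - α ^ k * y) / (α - 1) - W a k α)) := by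
      unfold Sm
      field_simp
      ring
    rw [e, abs_neg, abs_mul, abs_of_pos hα]
    calc (α - 1) * |(z - α ^ k * y) / (α - 1) - W a k α| ≤ (α - 1) * (1 / 2) :=
          mul_le_mul_of_nonneg_left hW hα.le
      _ = _ := by ring
  have hKI : Icc (z - ρ) (z + ρ) ⊆ Ioo (-1 : ℝ) 1 := by
    intro x hx
    have h5 := hx.1
    have h6 := hx.2
    rw [hz] at h5 h6
    constructor <;> linarith
  have hKJ : Icc (z - ρ) (z + ρ) ⊆ Ioo s t := by
    intro x hx
    have h5 := hx.1
    have h6 := hx.2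
    rw [hz] at h5 h6
    constructor <;> linarith
  have hc := comp_step hβ hfin hlim μ hμ ha k (Icc (z - ρ) (z + ρ)) isCompact_Icc hKI
  refine ⟨(Sm a k α) ⁻¹' (Icc (z - ρ) (z + ρ)), ?_, ?_⟩
  · apply mem_nhdsWithin_of_mem_nhds
    apply (Sm_cont a k α).continuousAt
    apply Icc_mem_nhds
    · have := (abs_le.mp hSz).1
      linarith
    · have := (abs_le.mp hSz).2
      linarith
  · rw [← nonpos_iff_eq_zero]
    calc _ ≤ μ (Icc (z - ρ) (z + ρ)) := hc
      _ ≤ μ (Ioo s t) := measure_mono hKJ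
      _ = 0 := h0

end Pool.Agent.helper32.ZO
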