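import Pool.Agent.helper32.ZO.Defs

/-!
# A zero-one law for the limits of the renormalised spectra
-/

set_option autoImplicit false

namespace Pool.Agent.helper32.ZO

open MeasureTheory Filter Topology Set Pool.Agent.helper94.SP

/-- digits -/
def Dig (a : ℕ → ℤ) : Prop := ∀ i, a i = -1 ∨ a i = 0 ∨ a i = 1

/-- the value of a polynomial with digits as coefficients -/
noncomputable def W (a : ℕ → ℤ) (k : ℕ) (β : ℝ) : ℝ := ∑ i ∈ Finset.range k, (a i : ℝ) * β ^ i

/-- `k` moves -/
noncomputable def Sm (a : ℕ → ℤ) (k : ℕ) (β y : ℝ) : ℝ := β ^ k * y + (β - 1) * W a k β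

theorem Y_abs {β y : ℝ} (hβ : 1 < β) (hy : y ∈ Y β) : |y| ≤ 1 := by
  obtain ⟨x, _, hx, rfl⟩ := hy
  have hb1 : 0 < β - 1 := by linarith
  rw [abs_mul, abs_of_pos hb1]
  calc (β - 1) * |x| ≤ (β - 1) * (1 / (β - 1)) := by
        apply mul_le_mul_of_nonneg_left hx hb1.le
    _ = 1 := by field_simp

theorem Sm_mem {a : ℕ → ℤ} (ha : Dig a) (k : ℕ) {β y : ℝ} (hβ : 1 < β) (hy : y ∈ Y β)
    (h1 : |Sm a k β y| ≤ 1) : Sm a k β y ∈ Y β := by
  obtain ⟨x, ⟨n, b, hb, hx⟩, _, hyx⟩ := hy
  have hb1 : 0 < β - 1 := by linarith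
  have e : Sm a k β y = (β - 1) * (β ^ k * x + W a k β) := by
    unfold Sm; rw [hyx]; ring
  refine ⟨β ^ k * x + W a k β, ⟨k + n, fun i => if i < k then a i else b (i - k), ?_, ?_⟩, ?_, e⟩
  · intro i
    by_cases h : i < k
    · simpa [h] using ha i
    · simpa [h] using hb (i - k)
  · rw [add_assoc, Finset.sum_range_add, add_comm]
    congr 1
    · unfold W
      apply Finset.sum_congr rfl
      intro i hi
      rw [Finset.mem_range] at hi
      simp [hi]
    · rw [hx, Finset.mul_sum]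
      apply Finset.sum_congr rfl
      intro i _
      have h1 : ¬ (k + i < k) := by omega
      simp only [h1, if_false, Nat.add_sub_cancel_left, pow_add]
      ring
  · rw [e, abs_mul, abs_of_pos hb1] at h1
    rw [le_div_iff₀ hb1]
    linarith

theorem dig_exists (α : ℝ) (h1 : 1 < α) (h2 : α ≤ 2) : ∀ k : ℕ, ∀ t : ℝ, |t| ≤ α ^ k / (α - 1) →
    ∃ a : ℕ → ℤ, Dig a ∧ |t - W a k α| ≤ 1 / (α - 1) := by
  have hα : 0 < α - 1 := by linarith
  intro k
  induction k with
  | zero =>
    intro t ht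
    refine ⟨fun _ => 0, fun _ => Or.inr (Or.inl rfl), ?_⟩
    simpa [W] using ht
  | succ k ih =>
    intro t ht
    have hp : 0 < α ^ k := by positivity
    have key : ∃ d : ℤ, (d = -1 ∨ d = 0 ∨ d = 1) ∧ |t - d * α ^ k| ≤ α ^ k / (α - 1) := by
      have hM1 : α ^ (k + 1) / (α - 1) = α ^ k / (α - 1) + α ^ k := by
        field_simp
        ring
      have hM2 : α ^ k ≤ α ^ k / (α - 1) := by
        rw [le_div_iff₀ hα]
        nlinarith
      rw [hM1] at ht
      generalize α ^ k / (α - 1) = M at *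
      rcases le_or_gt |t| M with h | h
      · exact ⟨0, Or.inr (Or.inl rfl), by simpa using h⟩
      · rcases le_total 0 t with h0 | h0
        · rw [abs_of_nonneg h0] at h ht
          refine ⟨1, Or.inr (Or.inr rfl), ?_⟩
          rw [abs_le]
          push_cast
          constructor <;> linarith
        · rw [abs_of_nonpos h0] at h ht
          refine ⟨-1, Or.inl rfl, ?_⟩
          rw [abs_le]
          push_cast
          constructor <;> linarith
    obtain ⟨d, hd, hd2⟩ := key
    obtain ⟨a, ha, ha2⟩ := ih (t - d * α ^ k) hd2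
    refine ⟨fun i => if i = k then d else a i, ?_, ?_⟩
    · intro i
      by_cases h : i = k
      · simpa [h] using hd
      · simpa [h] using ha i
    · have e : W (fun i => if i = k then d else a i) (k + 1) α = W a k α + d * α ^ k := by
        unfold W
        rw [Finset.sum_range_succ]
        congr 1
        · apply Finset.sum_congr rfl
          intro i hi
          have hik : i ≠ k := (Finset.mem_range.mp hi).ne
          simp [hik]
        · simp
      rw [e, show t - (W a k α + d * α ^ k) = t - d * α ^ k - W a k α by ring]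
      exact ha2

theorem dig_exists' (α : ℝ) (h1 : 1 < α) (h2 : α ≤ 2) (k : ℕ) (y : ℝ) (hy : |y| ≤ 1) :
    ∃ a : ℕ → ℤ, Dig a ∧ |Sm a k α y| ≤ 1 := by
  have hα : 0 < α - 1 := by linarith
  have hp : 0 < α ^ k := by positivity
  obtain ⟨a, ha, h⟩ := dig_exists α h1 h2 k (-(α ^ k * y) / (α - 1)) (by
    rw [abs_div, abs_neg, abs_mul, abs_of_pos hα, abs_of_pos hp]
    apply div_le_div_of_nonneg_right _ hα.le
    nlinarith)
  refine ⟨a, ha, ?_⟩
  have e : Sm a k α y = -((α - 1) * (-(α ^ k * y) / (α - 1) - W a k α)) := by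
    unfold Sm
    field_simp
    ring
  rw [e, abs_neg, abs_mul, abs_of_pos hα]
  calc (α - 1) * |-(α ^ k * y) / (α - 1) - W a k α| ≤ (α - 1) * (1 / (α - 1)) :=
        mul_le_mul_of_nonneg_left h hα.le
    _ = 1 := by field_simp

theorem Sm_sub (a : ℕ → ℤ) (k : ℕ) (β x y : ℝ) : Sm a k β x - Sm a k β y = β ^ k * (x - y) := by
  unfold Sm; ring

theorem Sm_inj (a : ℕ → ℤ) (k : ℕ) {β : ℝ} (hβ : 1 < β) : Function.Injective (Sm a k β) := by
  intro x y h
  have h1 := Sm_sub a k β x y
  rw [h, sub_self] at h1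
  have hp : β ^ k ≠ 0 := by positivity
  have := (mul_eq_zero.mp h1.symm).resolve_left hp
  linarith

theorem W_cont (a : ℕ → ℤ) (k : ℕ) : Continuous (W a k) := by
  unfold W
  fun_prop

theorem Sm_cont (a : ℕ → ℤ) (k : ℕ) (β : ℝ) : Continuous (Sm a k β) := by
  unfold Sm
  fun_prop

theorem vol_preim (a : ℕ → ℤ) (k : ℕ) {α : ℝ} (h1 : 1 < α) (K : Set ℝ) :
    volume ((Sm a k α) ⁻¹' K) = ENNReal.ofReal ((α⁻¹) ^ k) * volume K := by
  have hp : 0 < α ^ k := by positivity
  have e : (Sm a k α) ⁻¹' K = (fun x => α ^ k * x) ⁻¹' ((fun x => x + (α - 1) * W a k α) ⁻¹' K) := rfl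
  rw [e, Real.volume_preimage_mul_left hp.ne', measure_preimage_add_right]
  rw [abs_of_pos (inv_pos.mpr hp), inv_pow]

theorem dens (α : ℝ) (h1 : 1 < α) (h2 : α ≤ 2) (A K : Set ℝ) (hAm : MeasurableSet A)
    (hA : A ⊆ Icc (-1) 1) (hA0 : volume A ≠ 0) (hK : K ⊆ Icc (-1) 1) (hKm : MeasurableSet K)
    (hK0 : volume K ≠ 0) :
    ∃ (k : ℕ) (a : ℕ → ℤ), Dig a ∧ volume (A ∩ (Sm a k α) ⁻¹' K) ≠ 0 := by
  have hα0 : 0 < α := by linarith
  have hinv : 0 < α⁻¹ := inv_pos.mpr hα0
  have hinv1 : α⁻¹ < 1 := inv_lt_one_of_one_lt₀ h1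
  have hex : ∃ x ∈ A, Tendsto (fun k : ℕ => volume (A ∩ Metric.closedBall x (2 * (α⁻¹) ^ k)) /
      volume (Metric.closedBall x (2 * (α⁻¹) ^ k))) atTop (𝓝 1) := by
    by_contra hcon
    push Not at hcon
    have hae : ∀ᵐ x ∂((volume : Measure ℝ).restrict A), x ∉ A := by
      filter_upwards [IsUnifLocDoublingMeasure.ae_tendsto_measure_inter_div (volume : Measure ℝ) A 1]
        with x hx hxA
      refine hcon x hxA (hx (fun _ => x) (fun k : ℕ => 2 * (α⁻¹) ^ k) ?_ ?_)
      · rw [tendsto_nhdsWithin_iff]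
        refine ⟨?_, Eventually.of_forall fun k => by
          show 0 < 2 * (α⁻¹) ^ k
          positivity⟩
        have := (tendsto_pow_atTop_nhds_zero_of_lt_one hinv.le hinv1).const_mul 2
        simpa using this
      · refine Eventually.of_forall fun k => ?_
        apply Metric.mem_closedBall_self
        positivity
    rw [ae_restrict_iff' hAm] at hae
    apply hA0
    rw [measure_eq_zero_iff_ae_notMem]
    filter_upwards [hae] with x hx hxA
    exact hx hxA hxA
  obtain ⟨x, hxA, hlim⟩ := hex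
  by_contra hcon
  push Not at hcon
  have hle : ∀ k : ℕ, volume (A ∩ Metric.closedBall x (2 * (α⁻¹) ^ k)) /
      volume (Metric.closedBall x (2 * (α⁻¹) ^ k)) + volume K / 4 ≤ 1 := by
    intro k
    obtain ⟨a, ha, hS⟩ := dig_exists' α h1 h2 k x (abs_le.mpr ⟨(hA hxA).1, (hA hxA).2⟩)
    have h0 := hcon k a ha
    set B := Metric.closedBall x (2 * (α⁻¹) ^ k) with hB
    set P := (Sm a k α) ⁻¹' K with hP
    have hPm : MeasurableSet P := (Sm_cont a k α).measurable hKm
    have hPB : P ⊆ B := by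
      intro y hy
      have hy1 : |Sm a k α y| ≤ 1 := abs_le.mpr ⟨(hK hy).1, (hK hy).2⟩
      rw [hB, Metric.mem_closedBall, Real.dist_eq]
      have hd := Sm_sub a k α y x
      have hp : 0 < α ^ k := by positivity
      have hd2 : α ^ k * |y - x| ≤ 2 := by
        rw [← abs_of_pos hp, ← abs_mul, ← hd]
        have := abs_sub (Sm a k α y) (Sm a k α x)
        linarith
      rw [inv_pow]
      have e : 2 * (α ^ k)⁻¹ = 2 / α ^ k := by rw [div_eq_mul_inv]
      rw [e, le_div_iff₀ hp]
      linarith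
    have hsum : volume (A ∩ B) + volume P ≤ volume B := by
      have s1 : volume (A ∩ B) ≤ volume ((A ∩ B) \ P) + volume (A ∩ P) := by
        refine le_trans (measure_mono ?_) (measure_union_le _ _)
        intro y hy
        by_cases hyP : y ∈ P
        · exact Or.inr ⟨hy.1, hyP⟩
        · exact Or.inl ⟨hy, hyP⟩
      rw [h0, add_zero] at s1
      calc volume (A ∩ B) + volume P ≤ volume ((A ∩ B) \ P) + volume P := by gcongr
        _ = volume (((A ∩ B) \ P) ∪ P) := (measure_union disjoint_sdiff_left hPm).symm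
        _ ≤ volume B := by
            apply measure_mono
            rintro y (hy | hy)
            · exact hy.1.2
            · exact hPB hy
    set p := ENNReal.ofReal ((α⁻¹) ^ k) with hp
    have hp0 : p ≠ 0 := by
      rw [hp, ne_eq, ENNReal.ofReal_eq_zero, not_le]
      positivity
    have hpt : p ≠ ⊤ := ENNReal.ofReal_ne_top
    have hvB : volume B = p * 4 := by
      rw [hB, Real.volume_closedBall, hp, show 2 * (2 * (α⁻¹) ^ k) = (α⁻¹) ^ k * 4 by ring,
        ENNReal.ofReal_mul (by positivity)]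
      norm_num
    have hvP : volume P = p * volume K := vol_preim a k h1 K
    have e1 : volume K / 4 = volume P / volume B := by
      rw [hvB, hvP, ENNReal.mul_div_mul_left _ _ hp0 hpt]
    rw [e1, ← ENNReal.add_div]
    exact ENNReal.div_le_of_le_mul (by rw [one_mul]; exact hsum)
  have hlim2 := hlim.add (tendsto_const_nhds (x := volume K / 4))
  have h3 : (1 : ENNReal) + volume K / 4 ≤ 1 := le_of_tendsto' hlim2 hle
  have h4 : volume K / 4 ≤ 0 := by
    have h5 : (1 : ENNReal) + volume K / 4 ≤ 1 + 0 := by rw [add_zero]; exact h3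
    exact (ENNReal.add_le_add_iff_left ENNReal.one_ne_top).mp h5
  rw [nonpos_iff_eq_zero, ENNReal.div_eq_zero_iff] at h4
  rcases h4 with h | h
  · exact hK0 h
  · exact absurd h (by norm_num)

theorem avg_step {a : ℕ → ℤ} (ha : Dig a) (k : ℕ) {β : ℝ} (hβ : 1 < β) (hfin : (Y β).Finite)
    (f : ℝ → ℝ) (hf : ∀ x, 0 ≤ f x) (hf0 : ∀ x, ¬ (|x| < 1) → f x = 0) :
    avg β (fun y => f (Sm a k β y)) ≤ avg β f := by
  classical
  unfold avg
  rw [finsum_mem_eq_finite_toFinset_sum _ hfin, finsum_mem_eq_finite_toFinset_sum _ hfin]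
  apply div_le_div_of_nonneg_right _ (Nat.cast_nonneg _)
  set T := hfin.toFinset with hT
  calc ∑ y ∈ T, f (Sm a k β y) = ∑ y ∈ T.filter (fun y => |Sm a k β y| < 1), f (Sm a k β y) := by
        rw [Finset.sum_filter]
        apply Finset.sum_congr rfl
        intro y _
        split_ifs with h
        · rfl
        · exact hf0 _ h
    _ = ∑ z ∈ (T.filter (fun y => |Sm a k β y| < 1)).image (Sm a k β), f z :=
        (Finset.sum_image (fun x _ y _ h => Sm_inj a k hβ h)).symm
    _ ≤ ∑ z ∈ T, f z := by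
        apply Finset.sum_le_sum_of_subset_of_nonneg
        · intro z hz
          rw [Finset.mem_image] at hz
          obtain ⟨y, hy, rfl⟩ := hz
          rw [Finset.mem_filter, hT, Finite.mem_toFinset] at hy
          rw [hT, Finite.mem_toFinset]
          exact Sm_mem ha k hβ hy.1 hy.2.le
        · intro z _ _
          exact hf z

theorem avg_close {β : ℝ} (hfin : (Y β).Finite) (g h : ℝ → ℝ) (ε : ℝ) (hε : 0 ≤ ε)
    (hgh : ∀ y ∈ Y β, g y ≤ h y + ε) : avg β g ≤ avg β h + ε := by
  unfold avg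
  rw [finsum_mem_eq_finite_toFinset_sum _ hfin, finsum_mem_eq_finite_toFinset_sum _ hfin,
    ncard_eq_toFinset_card _ hfin]
  have hs : ∑ y ∈ hfin.toFinset, g y ≤ ∑ y ∈ hfin.toFinset, h y + hfin.toFinset.card * ε := by
    rw [← nsmul_eq_mul, ← Finset.sum_const, ← Finset.sum_add_distrib]
    apply Finset.sum_le_sum
    intro y hy
    exact hgh y (hfin.mem_toFinset.mp hy)
  rcases Nat.eq_zero_or_pos hfin.toFinset.card with h0 | h0
  · rw [h0]
    simpa using hε
  · have hc : (0 : ℝ) < hfin.toFinset.card := by exact_mod_cast h0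
    rw [div_add' _ _ _ hc.ne']
    apply div_le_div_of_nonneg_right _ hc.le
    linarith

theorem lim_step {β : ℕ → ℝ} {α : ℝ} (hβ : ∀ n, 1 < β n) (hfin : ∀ n, (Y (β n)).Finite)
    (hlim : Tendsto β atTop (𝓝 α)) (μ : Measure ℝ)
    (hμ : ∀ f : ℝ → ℝ, Continuous f → Tendsto (fun n => avg (β n) f) atTop (𝓝 (∫ x, f x ∂μ)))
    {a : ℕ → ℤ} (ha : Dig a) (k : ℕ) (f : ℝ → ℝ) (hfc : Continuous f)
    (hf : ∀ x, 0 ≤ f x) (hf0 : ∀ x, ¬ (|x| < 1) → f x = 0) :
    ∫ x, f (Sm a k α x) ∂μ ≤ ∫ x, f x ∂μ := by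
  have hsup : HasCompactSupport f := by
    apply HasCompactSupport.intro (isCompact_Icc (a := (-1 : ℝ)) (b := 1))
    intro x hx
    apply hf0
    intro h
    exact hx ⟨(abs_lt.mp h).1.le, (abs_lt.mp h).2.le⟩
  have huc := hsup.uniformContinuous_of_continuous hfc
  apply le_of_forall_pos_le_add
  intro ε hε
  rw [Metric.uniformContinuous_iff] at huc
  obtain ⟨δ, hδ, hd⟩ := huc ε hε
  have t1 : Tendsto (fun n => (β n) ^ k) atTop (𝓝 (α ^ k)) := hlim.pow k
  have t2 : Tendsto (fun n => (β n - 1) * W a k (β n)) atTop (𝓝 ((α - 1) * W a k α)) :=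
    (hlim.sub_const 1).mul (((W_cont a k).tendsto α).comp hlim)
  have ev1 : ∀ᶠ n in atTop, |(β n) ^ k - α ^ k| < δ / 2 := by
    have := Metric.tendsto_nhds.mp t1 (δ / 2) (by linarith)
    simpa [Real.dist_eq] using this
  have ev2 : ∀ᶠ n in atTop, |(β n - 1) * W a k (β n) - (α - 1) * W a k α| < δ / 2 := by
    have := Metric.tendsto_nhds.mp t2 (δ / 2) (by linarith)
    simpa [Real.dist_eq] using this
  have hev : ∀ᶠ n in atTop, avg (β n) (fun y => f (Sm a k α y)) ≤ avg (β n) f + ε := by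
    filter_upwards [ev1, ev2] with n h1 h2
    have h3 := avg_close (hfin n) (fun y => f (Sm a k α y)) (fun y => f (Sm a k (β n) y)) ε hε.le (by
      intro y hy
      have hy1 := Y_abs (hβ n) hy
      have hdist : dist (Sm a k α y) (Sm a k (β n) y) < δ := by
        rw [dist_comm, Real.dist_eq]
        have e : Sm a k (β n) y - Sm a k α y = ((β n) ^ k - α ^ k) * y +
            ((β n - 1) * W a k (β n) - (α - 1) * W a k α) := by
          unfold Sm; ring
        rw [e]
        calc _ ≤ |((β n) ^ k - α ^ k) * y| + |(β n - 1) * W a k (β n) - (α - 1) * W a k α| :=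
              abs_add_le _ _
          _ ≤ |(β n) ^ k - α ^ k| + |(β n - 1) * W a k (β n) - (α - 1) * W a k α| := by
              refine add_le_add ?_ le_rfl
              rw [abs_mul]
              exact mul_le_of_le_one_right (abs_nonneg _) hy1
          _ < δ := by linarith
      have := hd hdist
      rw [Real.dist_eq] at this
      have := (abs_lt.mp this).2
      show f (Sm a k α y) ≤ f (Sm a k (β n) y) + ε
      linarith)
    have h4 := avg_step ha k (hβ n) (hfin n) f hf hf0
    linarith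
  have l1 := hμ (fun y => f (Sm a k α y)) (hfc.comp (Sm_cont a k α))
  have l2 := (hμ f hfc).add_const ε
  exact le_of_tendsto_of_tendsto l1 l2 hev

theorem comp_step {β : ℕ → ℝ} {α : ℝ} (hβ : ∀ n, 1 < β n) (hfin : ∀ n, (Y (β n)).Finite)
    (hlim : Tendsto β atTop (𝓝 α)) (μ : Measure ℝ) [IsProbabilityMeasure μ]
    (hμ : ∀ f : ℝ → ℝ, Continuous f → Tendsto (fun n => avg (β n) f) atTop (𝓝 (∫ x, f x ∂μ)))
    {a : ℕ → ℤ} (ha : Dig a) (k : ℕ) (K : Set ℝ) (hK : IsCompact K) (hK1 : K ⊆ Ioo (-1) 1) :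
    μ ((Sm a k α) ⁻¹' K) ≤ μ K := by
  apply le_of_forall_gt_imp_ge_of_dense
  intro r hr
  obtain ⟨U, hKU, hUo, hUr⟩ := K.exists_isOpen_lt_of_lt r hr
  obtain ⟨f, f0, f1, f01⟩ := exists_continuous_zero_one_of_isClosed
    (s := (U ∩ Ioo (-1) 1)ᶜ) (t := K) (hUo.inter isOpen_Ioo).isClosed_compl hK.isClosed
    (by
      rw [Set.disjoint_left]
      intro x hx hxK
      exact hx ⟨hKU hxK, hK1 hxK⟩)
  have hstep := lim_step hβ hfin hlim μ hμ ha k f f.continuous (fun x => (f01 x).1) (by
    intro x hx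
    apply f0
    intro h
    exact hx (abs_lt.mpr ⟨h.2.1, h.2.2⟩))
  have hPm : MeasurableSet ((Sm a k α) ⁻¹' K) := (Sm_cont a k α).measurable hK.measurableSet
  have i1 : μ.real ((Sm a k α) ⁻¹' K) ≤ ∫ x, f (Sm a k α x) ∂μ := by
    rw [← integral_indicator_one hPm]
    apply integral_mono
    · exact (integrable_const 1).indicator hPm
    · apply Integrable.of_bound (f.continuous.comp (Sm_cont a k α)).aestronglyMeasurable 1
      refine Eventually.of_forall fun x => ?_
      show ‖f (Sm a k α x)‖ ≤ 1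
      rw [Real.norm_eq_abs, abs_of_nonneg (f01 _).1]
      exact (f01 _).2
    · intro x
      by_cases hx : x ∈ (Sm a k α) ⁻¹' K
      · rw [indicator_of_mem hx]
        have := f1 hx
        simp only [Pi.one_apply] at this ⊢
        rw [this]
      · rw [indicator_of_notMem hx]
        exact (f01 _).1
  have i2 : ∫ x, f x ∂μ ≤ μ.real U := by
    rw [← integral_indicator_one hUo.measurableSet]
    apply integral_mono
    · apply Integrable.of_bound f.continuous.aestronglyMeasurable 1
      refine Eventually.of_forall fun x => ?_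
      rw [Real.norm_eq_abs, abs_of_nonneg (f01 _).1]
      exact (f01 _).2
    · exact (integrable_const 1).indicator hUo.measurableSet
    · intro x
      by_cases hx : x ∈ U
      · rw [indicator_of_mem hx]
        exact (f01 _).2
      · rw [indicator_of_notMem hx]
        have : f x = 0 := f0 (fun h => hx h.1)
        rw [this]
  have h5 : μ.real ((Sm a k α) ⁻¹' K) ≤ μ.real U := le_trans i1 (le_trans hstep i2)
  have h6 : μ ((Sm a k α) ⁻¹' K) ≤ μ U := by
    unfold Measure.real at h5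
    exact (ENNReal.toReal_le_toReal (measure_ne_top _ _) (measure_ne_top _ _)).mp h5
  exact h6.trans hUr.le

/-- The measure version for a convergent sequence. -/
theorem measure_law {β : ℕ → ℝ} {α : ℝ} (hα1 : 1 < α) (hα2 : α ≤ 2) (hβ : ∀ n, 1 < β n)
    (hfin : ∀ n, (Y (β n)).Finite)
    (hlim : Tendsto β atTop (𝓝 α)) (μ : Measure ℝ) [IsProbabilityMeasure μ]
    (hμ1 : μ (Icc (-1) 1)ᶜ = 0)
    (hμ : ∀ f : ℝ → ℝ, Continuous f → Tendsto (fun n => avg (β n) f) atTop (𝓝 (∫ x, f x ∂μ)))
    (hns : ¬ μ ⟂ₘ volume) (E : Set ℝ) (hE : E ⊆ Icc (-1) 1) (hEm : MeasurableSet E)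
    (hE0 : volume E ≠ 0) : μ E ≠ 0 := by
  set h := μ.rnDeriv volume with hh
  have hhm : Measurable h := Measure.measurable_rnDeriv _ _
  have hpos : ∀ B : Set ℝ, MeasurableSet B → volume (Function.support h ∩ B) ≠ 0 → μ B ≠ 0 := by
    intro B hB hB0 hμB
    have h1 : 0 < ∫⁻ x in B, h x := (setLIntegral_pos_iff hhm).mpr (pos_iff_ne_zero.mpr hB0)
    have h2 : ∫⁻ x in B, h x = (volume.withDensity h) B := (withDensity_apply _ hB).symm
    have h3 : (volume.withDensity h) B ≤ μ B := Measure.withDensity_rnDeriv_le μ volume B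
    rw [h2] at h1
    exact absurd (lt_of_lt_of_le h1 h3) (by rw [hμB]; exact lt_irrefl 0)
  set A := Function.support h ∩ Icc (-1) 1 with hA
  have hsm : MeasurableSet (Function.support h) := measurableSet_support hhm
  have hAm : MeasurableSet A := hsm.inter measurableSet_Icc
  have hA0 : volume A ≠ 0 := by
    intro hA0
    apply hns
    rw [← Measure.rnDeriv_eq_zero]
    have hout : volume (Function.support h ∩ (Icc (-1) 1)ᶜ) = 0 := by
      by_contra hne
      exact hpos _ measurableSet_Icc.compl hne hμ1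
    have hall : volume (Function.support h) = 0 := by
      rw [← nonpos_iff_eq_zero]
      calc volume (Function.support h) ≤ volume A + volume (Function.support h ∩ (Icc (-1) 1)ᶜ) := by
            refine le_trans (measure_mono ?_) (measure_union_le _ _)
            intro x hx
            by_cases hx1 : x ∈ Icc (-1 : ℝ) 1
            · exact Or.inl ⟨hx, hx1⟩
            · exact Or.inr ⟨hx, hx1⟩
        _ = 0 := by rw [hA0, hout, add_zero]
    rw [measure_eq_zero_iff_ae_notMem] at hall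
    filter_upwards [hall] with x hx
    simpa using hx
  -- a compact subset of E inside the open interval
  have hEo : volume (E ∩ Ioo (-1) 1) ≠ 0 := by
    intro h0
    apply hE0
    rw [← nonpos_iff_eq_zero]
    calc volume E ≤ volume (E ∩ Ioo (-1) 1) + volume ({-1, 1} : Set ℝ) := by
          refine le_trans (measure_mono ?_) (measure_union_le _ _)
          intro x hx
          by_cases hx1 : x ∈ Ioo (-1 : ℝ) 1
          · exact Or.inl ⟨hx, hx1⟩
          · right
            have := hE hx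
            rw [mem_Ioo, not_and_or, not_lt, not_lt] at hx1
            rcases hx1 with h | h
            · left; exact le_antisymm h this.1
            · right; exact le_antisymm this.2 h
      _ = 0 := by
          rw [h0, zero_add]
          exact (Set.toFinite _).measure_zero _
  obtain ⟨K, hKE, hKc, hK0⟩ := (hEm.inter measurableSet_Ioo).exists_lt_isCompact
    (pos_iff_ne_zero.mpr hEo)
  have hKI : K ⊆ Ioo (-1) 1 := fun x hx => (hKE hx).2
  obtain ⟨k, a, ha, hv⟩ := dens α hα1 hα2 A K hAm inter_subset_right hA0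
    (fun x hx => Ioo_subset_Icc_self (hKI hx)) hKc.measurableSet hK0.ne'
  have hPm : MeasurableSet ((Sm a k α) ⁻¹' K) := (Sm_cont a k α).measurable hKc.measurableSet
  have h7 : μ ((Sm a k α) ⁻¹' K) ≠ 0 := by
    apply hpos _ hPm
    intro h0
    apply hv
    rw [← nonpos_iff_eq_zero, ← h0]
    apply measure_mono
    intro x hx
    exact ⟨hx.1.1, hx.2⟩
  have h8 := comp_step hβ hfin hlim μ hμ ha k K hKc hKI
  intro hE
  apply h7
  rw [← nonpos_iff_eq_zero, ← hE]
  exact h8.trans (measure_mono (fun x hx => (hKE hx).1))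

/-- The set version for a convergent sequence. -/
theorem set_law {β : ℕ → ℝ} {α : ℝ} (hα1 : 1 < α) (hα2 : α ≤ 2) (hβ : ∀ n, 1 < β n)
    (hlim : Tendsto β atTop (𝓝 α)) (E : Set ℝ) (hEc : IsClosed E)
    (hE : Tendsto (fun n => Metric.hausdorffEDist (Y (β n)) E) atTop (𝓝 0))
    (hE0 : volume E ≠ 0) : E = Icc (-1) 1 := by
  have near1 : ∀ x ∈ E, ∀ ε : ENNReal, 0 < ε → ∀ᶠ n in atTop, ∃ y ∈ Y (β n), edist x y < ε := by
    intro x hx ε hε
    filter_upwards [hE.eventually (gt_mem_nhds hε)] with n hn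
    rw [Metric.hausdorffEDist_comm] at hn
    exact Metric.exists_edist_lt_of_hausdorffEDist_lt hx hn
  have near2 : ∀ ε : ENNReal, 0 < ε → ∀ᶠ n in atTop, ∀ y ∈ Y (β n), ∃ x ∈ E, edist y x < ε := by
    intro ε hε
    filter_upwards [hE.eventually (gt_mem_nhds hε)] with n hn y hy
    exact Metric.exists_edist_lt_of_hausdorffEDist_lt hy hn
  have hsub : E ⊆ Icc (-1) 1 := by
    intro x hx
    have hcl : x ∈ closure (Icc (-1 : ℝ) 1) := by
      rw [Metric.mem_closure_iff]
      intro ε hε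
      obtain ⟨n, y, hy, hd⟩ := (near1 x hx (ENNReal.ofReal ε) (ENNReal.ofReal_pos.mpr hε)).exists
      refine ⟨y, ?_, ?_⟩
      · have := Y_abs (hβ n) hy
        exact ⟨(abs_le.mp this).1, (abs_le.mp this).2⟩
      · rw [edist_dist] at hd
        exact (ENNReal.ofReal_lt_ofReal_iff hε).mp hd
    rwa [isClosed_Icc.closure_eq] at hcl
  have hinv : ∀ (k : ℕ) (a : ℕ → ℤ), Dig a → ∀ x ∈ E, |Sm a k α x| < 1 → Sm a k α x ∈ E := by
    intro k a ha x hx hS
    rw [← hEc.closure_eq, Metric.mem_closure_iff]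
    intro ε hε
    set M := (2 : ℝ) ^ k with hM
    have hMpos : 0 < M := by positivity
    -- the map is close
    have tS : Tendsto (fun p : ℝ × ℝ => Sm a k p.1 p.2) (𝓝 (α, x)) (𝓝 (Sm a k α x)) := by
      have : Continuous (fun p : ℝ × ℝ => Sm a k p.1 p.2) := by
        unfold Sm
        have := W_cont a k
        fun_prop
      exact this.tendsto (α, x)
    have hρ : ∃ ρ > 0, ∀ p : ℝ × ℝ, dist p (α, x) < ρ →
        dist (Sm a k p.1 p.2) (Sm a k α x) < min (ε / 2) (1 - |Sm a k α x|) := by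
      have := Metric.tendsto_nhds.mp tS (min (ε / 2) (1 - |Sm a k α x|))
        (lt_min (by linarith) (by linarith))
      rw [Metric.eventually_nhds_iff] at this
      obtain ⟨ρ, hρ, h⟩ := this
      exact ⟨ρ, hρ, fun p hp => h hp⟩
    obtain ⟨ρ, hρ, hρ2⟩ := hρ
    have e1 := near1 x hx (ENNReal.ofReal ρ) (ENNReal.ofReal_pos.mpr hρ)
    have e2 := near2 (ENNReal.ofReal (ε / 2)) (ENNReal.ofReal_pos.mpr (by linarith))
    have e3 := Metric.tendsto_nhds.mp hlim ρ hρ
    obtain ⟨n, ⟨⟨y, hy, hxy⟩, h2⟩, h3⟩ := ((e1.and e2).and e3).exists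
    have hxy' : dist x y < ρ := by
      rw [edist_dist] at hxy
      exact (ENNReal.ofReal_lt_ofReal_iff hρ).mp hxy
    have hd := hρ2 (β n, y) (by
      rw [Prod.dist_eq]
      exact max_lt h3 (by rw [dist_comm]; exact hxy'))
    have hd1 : dist (Sm a k (β n) y) (Sm a k α x) < ε / 2 := lt_of_lt_of_le hd (min_le_left _ _)
    have hd2 : dist (Sm a k (β n) y) (Sm a k α x) < 1 - |Sm a k α x| :=
      lt_of_lt_of_le hd (min_le_right _ _)
    have habs : |Sm a k (β n) y| ≤ 1 := by
      rw [Real.dist_eq] at hd2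
      have := abs_sub_abs_le_abs_sub (Sm a k (β n) y) (Sm a k α x)
      linarith
    have hmem := Sm_mem ha k (hβ n) hy habs
    obtain ⟨e, he, hde⟩ := h2 _ hmem
    have hde' : dist (Sm a k (β n) y) e < ε / 2 := by
      rw [edist_dist] at hde
      exact (ENNReal.ofReal_lt_ofReal_iff (by linarith)).mp hde
    refine ⟨e, he, ?_⟩
    calc dist (Sm a k α x) e ≤ dist (Sm a k α x) (Sm a k (β n) y) + dist (Sm a k (β n) y) e :=
          dist_triangle _ _ _
      _ < ε := by rw [dist_comm (Sm a k α x)]; linarith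
  apply Subset.antisymm hsub
  by_contra hne
  have hne' : (Ioo (-1 : ℝ) 1 \ E).Nonempty := by
    rw [Set.nonempty_iff_ne_empty]
    intro hemp
    apply hne
    rw [Set.diff_eq_empty] at hemp
    have := closure_mono hemp
    rw [hEc.closure_eq, closure_Ioo (by norm_num)] at this
    exact this
  have hopen : IsOpen (Ioo (-1 : ℝ) 1 \ E) := isOpen_Ioo.sdiff hEc
  have hv : volume (Ioo (-1 : ℝ) 1 \ E) ≠ 0 := (hopen.measure_pos volume hne').ne'
  obtain ⟨k, a, ha, h⟩ := dens α hα1 hα2 E (Ioo (-1) 1 \ E) hEc.measurableSet hsub hE0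
    (fun x hx => Ioo_subset_Icc_self hx.1) hopen.measurableSet hv
  obtain ⟨x, hx⟩ := nonempty_of_measure_ne_zero h
  exact hx.2.2 (hinv k a ha x hx.1 (abs_lt.mpr ⟨hx.2.1.1, hx.2.1.2⟩))

end Pool.Agent.helper32.ZO
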